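import Pool.Agent.Helper33.PA.Defs
import Pool.Agent.Helper53.AC.L0
import Pool.Agent.Helper53.AC.L1a

/-!
# MP_f6d4b0_an phase 2: elementary facts about densities
-/

set_option autoImplicit false

open Complex Filter Topology Metric MeasureTheory
open scoped ComplexConjugate

namespace Pool.Agent.PA

/-! ## Densities -/

theorem Den.zero : Den (fun _ => 0) :=
  ⟨continuous_const, HasCompactSupport.zero, fun _ => le_rfl⟩

theorem Den.add {ρ σ : ℂ → ℝ} (hρ : Den ρ) (hσ : Den σ) : Den (fun z => ρ z + σ z) :=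
  ⟨hρ.cont.add hσ.cont, hρ.supp.add hσ.supp, fun z => add_nonneg (hρ.nonneg z) (hσ.nonneg z)⟩

theorem Den.smul {ρ : ℂ → ℝ} (hρ : Den ρ) {t : ℝ} (ht : 0 ≤ t) : Den (fun z => t * ρ z) :=
  ⟨continuous_const.mul hρ.cont, hρ.supp.mul_left, fun z => mul_nonneg ht (hρ.nonneg z)⟩

theorem Den.mul {ρ ψ : ℂ → ℝ} (hρ : Den ρ) (hψ : Continuous ψ) (h0 : ∀ z, 0 ≤ ψ z) :
    Den (fun z => ψ z * ρ z) :=
  ⟨hψ.mul hρ.cont, hρ.supp.mul_left, fun z => mul_nonneg (h0 z) (hρ.nonneg z)⟩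

theorem Den.sum {ι : Type*} {ρ : ι → ℂ → ℝ} (s : Finset ι) (h : ∀ k ∈ s, Den (ρ k)) :
    Den (fun z => ∑ k ∈ s, ρ k z) := by
  classical
  induction s using Finset.induction_on with
  | empty => simpa using Den.zero
  | insert a s ha ih =>
    have h1 := (h a (Finset.mem_insert_self a s)).add
      (ih fun k hk => h k (Finset.mem_insert_of_mem hk))
    refine ⟨?_, ?_, ?_⟩
    · simpa only [Finset.sum_insert ha] using h1.cont
    · simpa only [Finset.sum_insert ha] using h1.supp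
    · simpa only [Finset.sum_insert ha] using h1.nonneg

theorem Den.integrable {ρ : ℂ → ℝ} (hρ : Den ρ) : Integrable ρ :=
  hρ.cont.integrable_of_hasCompactSupport hρ.supp

theorem CC.integrable {g : ℂ → ℂ} (hg : CC g) : Integrable g :=
  hg.cont.integrable_of_hasCompactSupport hg.supp

theorem CC.zero : CC (fun _ => 0) := ⟨continuous_const, HasCompactSupport.zero⟩

theorem CC.add {g k : ℂ → ℂ} (hg : CC g) (hk : CC k) : CC (fun z => g z + k z) :=
  ⟨hg.cont.add hk.cont, hg.supp.add hk.supp⟩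

theorem CC.sub {g k : ℂ → ℂ} (hg : CC g) (hk : CC k) : CC (fun z => g z - k z) :=
  ⟨hg.cont.sub hk.cont, hg.supp.sub hk.supp⟩

theorem CC.mul {g φ : ℂ → ℂ} (hg : CC g) (hφ : Continuous φ) : CC (fun z => φ z * g z) :=
  ⟨hφ.mul hg.cont, hg.supp.mul_left⟩

theorem CC.sum {ι : Type*} {g : ι → ℂ → ℂ} (s : Finset ι) (h : ∀ k ∈ s, CC (g k)) :
    CC (fun z => ∑ k ∈ s, g k z) := by
  classical
  induction s using Finset.induction_on with
  | empty => simpa using CC.zero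
  | insert a s ha ih =>
    have h1 := (h a (Finset.mem_insert_self a s)).add
      (ih fun k hk => h k (Finset.mem_insert_of_mem hk))
    refine ⟨?_, ?_⟩
    · simpa only [Finset.sum_insert ha] using h1.cont
    · simpa only [Finset.sum_insert ha] using h1.supp

theorem Den.cc {ρ : ℂ → ℝ} (hρ : Den ρ) : CC (fun z => (ρ z : ℂ)) :=
  ⟨continuous_ofReal.comp hρ.cont, hρ.supp.comp_left (g := fun t : ℝ => (t : ℂ)) rfl⟩

theorem Den.cc_mul {ρ : ℂ → ℝ} {φ : ℂ → ℂ} (hρ : Den ρ) (hφ : Continuous φ) :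
    CC (fun z => φ z * (ρ z : ℂ)) := hρ.cc.mul hφ

/-- a complex function dominated by a density is continuous with compact support as soon as it is
continuous -/
theorem CC.of_le {g : ℂ → ℂ} {ρ : ℂ → ℝ} {M : ℝ} (hρ : Den ρ) (hg : Continuous g)
    (h : ∀ z, ‖g z‖ ≤ M * ρ z) : CC g := by
  refine ⟨hg, hρ.supp.mono' ?_⟩
  intro z hz
  refine subset_tsupport _ ?_
  intro h0
  apply hz
  have := h z
  rw [h0, mul_zero] at this
  exact norm_le_zero_iff.1 this

theorem Den.of_le {σ ρ : ℂ → ℝ} {M : ℝ} (hρ : Den ρ) (hσ : Continuous σ) (h0 : ∀ z, 0 ≤ σ z)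
    (h : ∀ z, σ z ≤ M * ρ z) : Den σ := by
  refine ⟨hσ, hρ.supp.mono' ?_, h0⟩
  intro z hz
  refine subset_tsupport _ ?_
  intro h1
  apply hz
  have := h z
  rw [h1, mul_zero] at this
  exact le_antisymm this (h0 z)

theorem CC.norm {g : ℂ → ℂ} (hg : CC g) : Den (fun z => ‖g z‖) :=
  ⟨hg.cont.norm, hg.supp.norm, fun _ => norm_nonneg _⟩

/-! ## Mass -/

theorem mass_nonneg {ρ : ℂ → ℝ} (hρ : Den ρ) : 0 ≤ mass ρ := integral_nonneg hρ.nonneg

theorem mass_add {ρ σ : ℂ → ℝ} (hρ : Den ρ) (hσ : Den σ) :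
    mass (fun z => ρ z + σ z) = mass ρ + mass σ := integral_add hρ.integrable hσ.integrable

theorem mass_smul (ρ : ℂ → ℝ) (t : ℝ) : mass (fun z => t * ρ z) = t * mass ρ :=
  integral_const_mul t ρ

theorem mass_mono {ρ σ : ℂ → ℝ} (hρ : Den ρ) (hσ : Den σ) (h : ∀ z, ρ z ≤ σ z) :
    mass ρ ≤ mass σ := integral_mono hρ.integrable hσ.integrable h

theorem mass_sum {ι : Type*} {ρ : ι → ℂ → ℝ} (s : Finset ι) (h : ∀ k ∈ s, Den (ρ k)) :
    mass (fun z => ∑ k ∈ s, ρ k z) = ∑ k ∈ s, mass (ρ k) :=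
  integral_finsetSum s fun k hk => (h k hk).integrable

theorem mass_pos {ρ : ℂ → ℝ} (hρ : Den ρ) (h : ∃ z, ρ z ≠ 0) : 0 < mass ρ := by
  obtain ⟨z, hz⟩ := h
  exact hρ.cont.integral_pos_of_hasCompactSupport_nonneg_nonzero hρ.supp hρ.nonneg hz

theorem eq_zero_of_mass {ρ : ℂ → ℝ} (hρ : Den ρ) (h : mass ρ ≤ 0) : ∀ z, ρ z = 0 := by
  intro z
  by_contra hz
  exact absurd (mass_pos hρ ⟨z, hz⟩) (not_lt.2 h)

theorem bm_nonneg {ρ : ℂ → ℝ} (hρ : Den ρ) (x : ℂ) (r : ℝ) : 0 ≤ bm ρ x r :=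
  setIntegral_nonneg measurableSet_closedBall fun z _ => hρ.nonneg z

theorem bm_le_mass {ρ : ℂ → ℝ} (hρ : Den ρ) (x : ℂ) (r : ℝ) : bm ρ x r ≤ mass ρ :=
  setIntegral_le_integral hρ.integrable (Eventually.of_forall hρ.nonneg)

theorem bm_mono {ρ σ : ℂ → ℝ} (hρ : Den ρ) (hσ : Den σ) (h : ∀ z, ρ z ≤ σ z) (x : ℂ) (r : ℝ) :
    bm ρ x r ≤ bm σ x r :=
  setIntegral_mono hρ.integrable.integrableOn hσ.integrable.integrableOn h

theorem bm_mono_set {ρ : ℂ → ℝ} (hρ : Den ρ) {x y : ℂ} {r s : ℝ}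
    (h : closedBall x r ⊆ closedBall y s) : bm ρ x r ≤ bm ρ y s :=
  setIntegral_mono_set hρ.integrable.integrableOn (Eventually.of_forall hρ.nonneg)
    h.eventuallyLE

theorem bm_add {ρ σ : ℂ → ℝ} (hρ : Den ρ) (hσ : Den σ) (x : ℂ) (r : ℝ) :
    bm (fun z => ρ z + σ z) x r = bm ρ x r + bm σ x r :=
  integral_add hρ.integrable.integrableOn hσ.integrable.integrableOn

theorem bm_smul (ρ : ℂ → ℝ) (t : ℝ) (x : ℂ) (r : ℝ) :
    bm (fun z => t * ρ z) x r = t * bm ρ x r :=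
  integral_const_mul t _

theorem bm_sum {ι : Type*} {ρ : ι → ℂ → ℝ} (s : Finset ι) (h : ∀ k ∈ s, Den (ρ k)) (x : ℂ)
    (r : ℝ) : bm (fun z => ∑ k ∈ s, ρ k z) x r = ∑ k ∈ s, bm (ρ k) x r :=
  integral_finsetSum s fun k hk => (h k hk).integrable.integrableOn

/-- a density which lives in the disc has all its mass there -/
theorem bm_eq_mass {ρ : ℂ → ℝ} {x : ℂ} {r : ℝ} (h : ∀ z, ρ z ≠ 0 → ‖z - x‖ ≤ r) :
    bm ρ x r = mass ρ := by
  refine setIntegral_eq_integral_of_forall_compl_eq_zero fun z hz => ?_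
  by_contra h0
  apply hz
  rw [mem_closedBall, dist_eq_norm]
  exact h z h0

/-- if `ρ ≤ σ` and `ρ` lives in the disc then the mass of `ρ` is at most the mass of `σ` in the
disc -/
theorem mass_le_bm {ρ σ : ℂ → ℝ} (hρ : Den ρ) (hσ : Den σ) (h : ∀ z, ρ z ≤ σ z) {x : ℂ} {r : ℝ}
    (hs : ∀ z, ρ z ≠ 0 → ‖z - x‖ ≤ r) : mass ρ ≤ bm σ x r := by
  rw [← bm_eq_mass hs]
  exact bm_mono hρ hσ h x r

/-- if `ρ = σ` on the disc then the masses of the disc agree -/
theorem bm_congr {ρ σ : ℂ → ℝ} {x : ℂ} {r : ℝ} (h : ∀ z, ‖z - x‖ ≤ r → ρ z = σ z) :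
    bm ρ x r = bm σ x r := by
  refine setIntegral_congr_fun measurableSet_closedBall fun z hz => ?_
  rw [mem_closedBall, dist_eq_norm] at hz
  exact h z hz

theorem mass_zero : mass (fun _ => 0) = 0 := by unfold mass; simp

/-! ## Potentials and Cauchy transforms -/

theorem ct_integrable {g : ℂ → ℂ} (hg : CC g) (z : ℂ) : Integrable fun w => g w / (z - w) := by
  have h := (Pool.Agent.SV.l1a_ptl_integrable hg.cont hg.supp z).neg
  refine h.congr (Eventually.of_forall fun w => ?_)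
  simp only [Pi.neg_apply]
  rw [← neg_sub z w, div_neg, neg_neg]

theorem pot_integrable {ρ : ℂ → ℝ} (hρ : Den ρ) (z : ℂ) : Integrable fun w => ρ w / ‖z - w‖ := by
  have h := (ct_integrable hρ.cc z).norm
  refine h.congr (Eventually.of_forall fun w => ?_)
  simp only
  rw [norm_div, Complex.norm_real, Real.norm_eq_abs, abs_of_nonneg (hρ.nonneg w)]

theorem ct_continuous {g : ℂ → ℂ} (hg : CC g) : Continuous (CT g) := by
  have h := (Pool.Agent.SV.l1a_ptl_continuous hg.cont hg.supp).neg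
  have e : CT g = fun z => -Pool.Agent.SV.l1a_ptl g z := by
    funext z
    unfold CT Pool.Agent.SV.l1a_ptl
    rw [← integral_neg]
    refine integral_congr_ae (Eventually.of_forall fun w => ?_)
    simp only
    rw [← neg_sub z w, div_neg, neg_neg]
  rw [e]
  exact h

theorem ct_zero (z : ℂ) : CT (fun _ => 0) z = 0 := by simp [CT]

theorem ct_add {g k : ℂ → ℂ} (hg : CC g) (hk : CC k) (z : ℂ) :
    CT (fun w => g w + k w) z = CT g z + CT k z := by
  unfold CT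
  rw [← integral_add (ct_integrable hg z) (ct_integrable hk z)]
  refine integral_congr_ae (Eventually.of_forall fun w => ?_)
  simp only
  ring

theorem ct_sub {g k : ℂ → ℂ} (hg : CC g) (hk : CC k) (z : ℂ) :
    CT (fun w => g w - k w) z = CT g z - CT k z := by
  unfold CT
  rw [← integral_sub (ct_integrable hg z) (ct_integrable hk z)]
  refine integral_congr_ae (Eventually.of_forall fun w => ?_)
  simp only
  ring

theorem ct_smul (g : ℂ → ℂ) (c z : ℂ) : CT (fun w => c * g w) z = c * CT g z := by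
  unfold CT
  rw [← integral_const_mul]
  refine integral_congr_ae (Eventually.of_forall fun w => ?_)
  simp only
  ring

theorem ct_sum {ι : Type*} {g : ι → ℂ → ℂ} (s : Finset ι) (h : ∀ k ∈ s, CC (g k)) (z : ℂ) :
    CT (fun w => ∑ k ∈ s, g k w) z = ∑ k ∈ s, CT (g k) z := by
  unfold CT
  rw [← integral_finsetSum s fun k hk => ct_integrable (h k hk) z]
  refine integral_congr_ae (Eventually.of_forall fun w => ?_)
  simp only
  rw [Finset.sum_div]

theorem pot_nonneg {ρ : ℂ → ℝ} (hρ : Den ρ) (z : ℂ) : 0 ≤ Pot ρ z :=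
  integral_nonneg fun w => div_nonneg (hρ.nonneg w) (norm_nonneg _)

theorem pot_mono {ρ σ : ℂ → ℝ} (hρ : Den ρ) (hσ : Den σ) (h : ∀ z, ρ z ≤ σ z) (z : ℂ) :
    Pot ρ z ≤ Pot σ z :=
  integral_mono (pot_integrable hρ z) (pot_integrable hσ z) fun w =>
    div_le_div_of_nonneg_right (h w) (norm_nonneg _)

theorem pot_smul (ρ : ℂ → ℝ) (t : ℝ) (z : ℂ) : Pot (fun w => t * ρ w) z = t * Pot ρ z := by
  unfold Pot
  rw [← integral_const_mul]
  refine integral_congr_ae (Eventually.of_forall fun w => ?_)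
  simp only
  ring

theorem pot_add {ρ σ : ℂ → ℝ} (hρ : Den ρ) (hσ : Den σ) (z : ℂ) :
    Pot (fun w => ρ w + σ w) z = Pot ρ z + Pot σ z := by
  unfold Pot
  rw [← integral_add (pot_integrable hρ z) (pot_integrable hσ z)]
  refine integral_congr_ae (Eventually.of_forall fun w => ?_)
  simp only
  ring

theorem pot_sum {ι : Type*} {ρ : ι → ℂ → ℝ} (s : Finset ι) (h : ∀ k ∈ s, Den (ρ k)) (z : ℂ) :
    Pot (fun w => ∑ k ∈ s, ρ k w) z = ∑ k ∈ s, Pot (ρ k) z := by
  unfold Pot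
  rw [← integral_finsetSum s fun k hk => pot_integrable (h k hk) z]
  refine integral_congr_ae (Eventually.of_forall fun w => ?_)
  simp only
  rw [Finset.sum_div]

/-- a Cauchy transform is bounded by the potential of any density which dominates it -/
theorem norm_ct_le_pot {g : ℂ → ℂ} {ρ : ℂ → ℝ} (hρ : Den ρ) {M : ℝ}
    (h : ∀ z, ‖g z‖ ≤ M * ρ z) (z : ℂ) : ‖CT g z‖ ≤ M * Pot ρ z := by
  rw [← pot_smul]
  refine norm_integral_le_of_norm_le (((pot_integrable hρ z).const_mul M).congr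
    (Eventually.of_forall fun w => ?_)) (Eventually.of_forall fun w => ?_)
  · simp only
    ring
  · rw [norm_div]
    exact div_le_div_of_nonneg_right (h w) (norm_nonneg _)

/-- if `ρ` vanishes in the disc of radius `r` about `z` then its potential there is at most
`mass / r` -/
theorem pot_le_of_far {ρ : ℂ → ℝ} (hρ : Den ρ) {z : ℂ} {r : ℝ} (hr : 0 < r)
    (h : ∀ w, ρ w ≠ 0 → r ≤ ‖w - z‖) : Pot ρ z ≤ mass ρ / r := by
  unfold Pot mass
  rw [← integral_div]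
  refine integral_mono (pot_integrable hρ z) (hρ.integrable.div_const r) fun w => ?_
  by_cases h0 : ρ w = 0
  · simp [h0]
  · simp only
    rw [norm_sub_rev]
    exact div_le_div_of_nonneg_left (hρ.nonneg w) hr (h w h0)

/-- a density bounded by `B` in a disc of radius `r` has potential at most `2 π B r` -/
theorem pot_le_of_bdd {ρ : ℂ → ℝ} (hρ : Den ρ) {x : ℂ} {r B : ℝ} (hr : 0 < r) (hB : 0 ≤ B)
    (hs : ∀ w, ρ w ≠ 0 → ‖w - x‖ ≤ r) (hb : ∀ w, ρ w ≤ B) (z : ℂ) :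
    Pot ρ z ≤ 2 * Real.pi * B * r := by
  obtain ⟨hI, hb2⟩ := Pool.Agent.SV.inv_ball_integral z x hr
  have e1 : Pot ρ z = ∫ w in closedBall x r, ρ w / ‖z - w‖ := by
    refine (setIntegral_eq_integral_of_forall_compl_eq_zero fun w hw => ?_).symm
    by_cases h0 : ρ w = 0
    · simp [h0]
    · exact absurd (by rw [mem_closedBall, dist_eq_norm]; exact hs w h0) hw
  rw [e1]
  calc ∫ w in closedBall x r, ρ w / ‖z - w‖
      ≤ ∫ w in closedBall x r, B * ‖z - w‖⁻¹ := by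
        refine setIntegral_mono (pot_integrable hρ z).integrableOn (hI.const_mul B) fun w => ?_
        simp only
        rw [div_eq_mul_inv]
        exact mul_le_mul_of_nonneg_right (hb w) (inv_nonneg.2 (norm_nonneg _))
    _ = B * ∫ w in closedBall x r, ‖z - w‖⁻¹ := integral_const_mul _ _
    _ ≤ B * (2 * Real.pi * r) := mul_le_mul_of_nonneg_left hb2 hB
    _ = 2 * Real.pi * B * r := by ring

/-- the potential of a difference of values -/
theorem norm_ct_sub_le {g : ℂ → ℂ} {ρ : ℂ → ℝ} (hρ : Den ρ) {M : ℝ}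
    (h : ∀ z, ‖g z‖ ≤ M * ρ z) (x y : ℂ) : ‖CT g y - CT g x‖ ≤ M * (Pot ρ x + Pot ρ y) := by
  have h1 := norm_ct_le_pot hρ h x
  have h2 := norm_ct_le_pot hρ h y
  calc ‖CT g y - CT g x‖ ≤ ‖CT g y‖ + ‖CT g x‖ := norm_sub_le _ _
    _ ≤ M * (Pot ρ x + Pot ρ y) := by linarith

/-! ## Families -/

section fam

variable {ι : Type} [Fintype ι]

theorem nuc_den {κ : ι → ℂ → ℝ} (hκ : ∀ k, Den (κ k)) {c : ι → ℝ} (hc : ∀ k, 0 ≤ c k) :
    Den (nuc κ c) := Den.sum _ fun k _ => (hκ k).smul (hc k)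

theorem mass_nuc {κ : ι → ℂ → ℝ} (hκ : ∀ k, Den (κ k)) {c : ι → ℝ} :
    mass (nuc κ c) = ∑ k, c k * mass (κ k) := by
  unfold mass nuc
  rw [integral_finsetSum _ fun k _ => (hκ k).integrable.const_mul (c k)]
  exact Finset.sum_congr rfl fun k _ => integral_const_mul _ _

theorem nuc_mono {κ : ι → ℂ → ℝ} (hκ : ∀ k, Den (κ k)) {c c' : ι → ℝ} (h : ∀ k, c k ≤ c' k)
    (z : ℂ) : nuc κ c z ≤ nuc κ c' z :=
  Finset.sum_le_sum fun k _ => mul_le_mul_of_nonneg_right (h k) ((hκ k).nonneg z)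

theorem nuc_add (κ : ι → ℂ → ℝ) (c c' : ι → ℝ) (z : ℂ) :
    nuc κ (fun k => c k + c' k) z = nuc κ c z + nuc κ c' z := by
  unfold nuc
  rw [← Finset.sum_add_distrib]
  exact Finset.sum_congr rfl fun k _ => add_mul _ _ _

theorem nuc_smul (κ : ι → ℂ → ℝ) (c : ι → ℝ) (t : ℝ) (z : ℂ) :
    nuc κ (fun k => t * c k) z = t * nuc κ c z := by
  unfold nuc
  rw [Finset.mul_sum]
  exact Finset.sum_congr rfl fun k _ => mul_assoc _ _ _

theorem nuc_zero (κ : ι → ℂ → ℝ) (z : ℂ) : nuc κ (fun _ => 0) z = 0 := by simp [nuc]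

/-- a density in the family is nonzero at a point only if some atom with positive weight is -/
theorem exists_of_nuc_ne {κ : ι → ℂ → ℝ} {c : ι → ℝ} {z : ℂ} (h : nuc κ c z ≠ 0) :
    ∃ k, c k ≠ 0 ∧ κ k z ≠ 0 := by
  by_contra h0
  push Not at h0
  apply h
  unfold nuc
  refine Finset.sum_eq_zero fun k _ => ?_
  by_cases hc : c k = 0
  · rw [hc, zero_mul]
  · rw [h0 k hc, mul_zero]

theorem nuc_ne_of {κ : ι → ℂ → ℝ} (hκ : ∀ k, Den (κ k)) {c : ι → ℝ} (hc : ∀ k, 0 ≤ c k) {z : ℂ}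
    {k : ι} (h1 : c k ≠ 0) (h2 : κ k z ≠ 0) : nuc κ c z ≠ 0 := by
  have h3 : 0 < c k * κ k z :=
    mul_pos (lt_of_le_of_ne (hc k) (Ne.symm h1)) (lt_of_le_of_ne ((hκ k).nonneg z) (Ne.symm h2))
  have h4 : c k * κ k z ≤ nuc κ c z :=
    Finset.single_le_sum (f := fun j => c j * κ j z)
      (fun j _ => mul_nonneg (hc j) ((hκ j).nonneg z)) (Finset.mem_univ k)
  exact (lt_of_lt_of_le h3 h4).ne'

omit [Fintype ι] in
theorem ind_mem {J : Finset ι} {k : ι} (h : k ∈ J) : ind J k = 1 := by simp [ind, h]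

omit [Fintype ι] in
theorem ind_notMem {J : Finset ι} {k : ι} (h : k ∉ J) : ind J k = 0 := by simp [ind, h]

omit [Fintype ι] in
theorem ind_wt (J : Finset ι) : Wt (ind J) := by
  intro k
  unfold ind
  split <;> norm_num

omit [Fintype ι] in
theorem Wt.nonneg {c : ι → ℝ} (hc : Wt c) : ∀ k, 0 ≤ c k := fun k => (hc k).1

theorem pot_nuc {κ : ι → ℂ → ℝ} (hκ : ∀ k, Den (κ k)) {c : ι → ℝ} (hc : ∀ k, 0 ≤ c k) (z : ℂ) :
    Pot (nuc κ c) z = ∑ k, c k * Pot (κ k) z := by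
  have h := pot_sum Finset.univ (fun k (_ : k ∈ Finset.univ) => (hκ k).smul (hc k)) z
  refine h.trans (Finset.sum_congr rfl fun k _ => pot_smul _ _ _)

end fam

end Pool.Agent.PA
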