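import Mathlib

/-!
# MP_f6d4b0_an phase 2: common definitions

Everything is for continuous compactly supported densities on the plane.
-/

set_option autoImplicit false

open Complex Filter Topology Metric MeasureTheory
open scoped ComplexConjugate

namespace Pool.Agent.PA

/-- Cauchy transform with respect to area measure -/
noncomputable def CT (g : ℂ → ℂ) (z : ℂ) : ℂ := ∫ w, g w / (z - w)

/-- the potential with kernel `1 / |z|` -/
noncomputable def Pot (ρ : ℂ → ℝ) (z : ℂ) : ℝ := ∫ w, ρ w / ‖z - w‖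

/-- continuous complex functions with compact support -/
structure CC (g : ℂ → ℂ) : Prop where
  cont : Continuous g
  supp : HasCompactSupport g

/-- densities: continuous nonnegative functions with compact support -/
structure Den (ρ : ℂ → ℝ) : Prop where
  cont : Continuous ρ
  supp : HasCompactSupport ρ
  nonneg : ∀ z, 0 ≤ ρ z

/-- total mass -/
noncomputable def mass (ρ : ℂ → ℝ) : ℝ := ∫ z, ρ z

/-- mass of a closed disc -/
noncomputable def bm (ρ : ℂ → ℝ) (x : ℂ) (r : ℝ) : ℝ := ∫ z in closedBall x r, ρ z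

/-- growth at most `g r` at all scales `r ≥ d` -/
def Gro (ρ : ℂ → ℝ) (g d : ℝ) : Prop := ∀ (x : ℂ) (r : ℝ), d ≤ r → bm ρ x r ≤ g * r

/-- `(L, G)` is a pair of fields of the density `ρ` with data `(a, b)` at infinity -/
structure IsFld (ρ : ℂ → ℝ) (a b : ℂ) (L G : ℂ → ℂ) : Prop where
  contL : Continuous L
  contG : Continuous G
  eqL : ∀ z, L z = a + CT (fun w => conj (G w) * (ρ w : ℂ)) z
  eqG : ∀ z, G z = b + CT (fun w => conj (L w) * (ρ w : ℂ)) z

open Classical in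
/-- chosen fields of `ρ` with data `(1, 0)` -/
noncomputable def fld (ρ : ℂ → ℝ) : (ℂ → ℂ) × (ℂ → ℂ) :=
  if h : ∃ p : (ℂ → ℂ) × (ℂ → ℂ), IsFld ρ 1 0 p.1 p.2 then h.choose else (fun _ => 1, fun _ => 0)

/-- the field `L` -/
noncomputable def Lf (ρ : ℂ → ℝ) : ℂ → ℂ := (fld ρ).1

/-- the field `G` -/
noncomputable def Gf (ρ : ℂ → ℝ) : ℂ → ℂ := (fld ρ).2

/-- `|L|² - |G|²` -/
noncomputable def Dd (ρ : ℂ → ℝ) (z : ℂ) : ℝ := ‖Lf ρ z‖ ^ 2 - ‖Gf ρ z‖ ^ 2

/-- the functional `S` -/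
noncomputable def Sf (ρ : ℂ → ℝ) : ℝ := ∫ z, (‖Lf ρ z‖ ^ 2 + ‖Gf ρ z‖ ^ 2) * ρ z

/-- heredity: `S` is at least `lam` times the mass for all smaller densities -/
def Her (ρ : ℂ → ℝ) (lam : ℝ) : Prop :=
  ∀ τ : ℂ → ℝ, Den τ → (∀ z, τ z ≤ ρ z) → lam * mass τ ≤ Sf τ

section atoms

variable {ι : Type} [Fintype ι]

/-- families of atoms: `κ k` lives in the disc with centre `p k` and radius `d`, its potential is
at most `θ`, and every disc of radius `d` contains at most `N` of the centres -/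
structure Atoms (κ : ι → ℂ → ℝ) (p : ι → ℂ) (d θ : ℝ) (N : ℕ) : Prop where
  den : ∀ k, Den (κ k)
  ne : ∀ k, ∃ z, κ k z ≠ 0
  d_pos : 0 < d
  sup : ∀ k z, κ k z ≠ 0 → ‖z - p k‖ ≤ d
  pot : ∀ k z, Pot (κ k) z ≤ θ
  num : ∀ (x : ℂ) (T : Finset ι), (∀ k ∈ T, ‖p k - x‖ ≤ d) → T.card ≤ N

/-- the density with weights `c` -/
noncomputable def nuc (κ : ι → ℂ → ℝ) (c : ι → ℝ) (z : ℂ) : ℝ := ∑ k, c k * κ k z

open Classical in
/-- the indicator weights of a sub-collection -/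
noncomputable def ind (J : Finset ι) (k : ι) : ℝ := if k ∈ J then 1 else 0

/-- weights in `[0, 1]` -/
def Wt (c : ι → ℝ) : Prop := ∀ k, 0 ≤ c k ∧ c k ≤ 1

/-- admissible weights for the sub-collection `J` -/
structure Adm (κ : ι → ℂ → ℝ) (J : Finset ι) (c : ι → ℝ) : Prop where
  wt : Wt c
  off : ∀ k, k ∉ J → c k = 0
  big : ∀ z, nuc κ c z ≠ 0 → 2 / 5 ≤ Dd (nuc κ c) z

/-- the capacity of a sub-collection -/
noncomputable def cap (κ : ι → ℂ → ℝ) (J : Finset ι) : ℝ :=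
  sSup {m : ℝ | ∃ c : ι → ℝ, Adm κ J c ∧ m = mass (nuc κ c)}

end atoms

end Pool.Agent.PA
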