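import Pool.Agent.Helper33.PA.Basic

/-!
# MP_f6d4b0_an phase 2: interface, section 1 (the functional and its fields)

The statements with `sorry` are the targets of block B.
-/

set_option autoImplicit false

open Complex Filter Topology Metric MeasureTheory
open scoped ComplexConjugate

namespace Pool.Agent.PA

/-- existence of the fields with data `(a, b)` -/
theorem exists_fld {ρ : ℂ → ℝ} (hρ : Den ρ) (a b : ℂ) : ∃ L G : ℂ → ℂ, IsFld ρ a b L G := by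
  sorry

/-- uniqueness of the fields -/
theorem fld_unique {ρ : ℂ → ℝ} (hρ : Den ρ) {a b : ℂ} {L G L' G' : ℂ → ℂ}
    (h : IsFld ρ a b L G) (h' : IsFld ρ a b L' G') : L = L' ∧ G = G' := by
  sorry

theorem isFld {ρ : ℂ → ℝ} (hρ : Den ρ) : IsFld ρ 1 0 (Lf ρ) (Gf ρ) := by
  have h : ∃ p : (ℂ → ℂ) × (ℂ → ℂ), IsFld ρ 1 0 p.1 p.2 := by
    obtain ⟨L, G, hLG⟩ := exists_fld hρ 1 0
    exact ⟨(L, G), hLG⟩
  unfold Lf Gf fld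
  rw [dif_pos h]
  exact h.choose_spec

theorem Dd_continuous {ρ : ℂ → ℝ} (hρ : Den ρ) : Continuous (Dd ρ) := by
  have h := isFld hρ
  exact (h.contL.norm.pow 2).sub (h.contG.norm.pow 2)

/-- (1.4) positivity -/
theorem Gf_lt_Lf {ρ : ℂ → ℝ} (hρ : Den ρ) (z : ℂ) : ‖Gf ρ z‖ < ‖Lf ρ z‖ := by
  sorry

theorem Dd_pos {ρ : ℂ → ℝ} (hρ : Den ρ) (z : ℂ) : 0 < Dd ρ z := by
  have h := Gf_lt_Lf hρ z
  have h0 := norm_nonneg (Gf ρ z)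
  unfold Dd
  nlinarith

/-- (1.2) -/
theorem Sf_eq {ρ : ℂ → ℝ} (hρ : Den ρ) : ∫ z, Lf ρ z * (ρ z : ℂ) = (Sf ρ : ℂ) := by
  sorry

theorem Sf_nonneg {ρ : ℂ → ℝ} (hρ : Den ρ) : 0 ≤ Sf ρ :=
  integral_nonneg fun z => mul_nonneg (by positivity) (hρ.nonneg z)

/-- (1.2) -/
theorem Sf_le_mass {ρ : ℂ → ℝ} (hρ : Den ρ) : Sf ρ ≤ mass ρ := by
  sorry

/-- (1.7) -/
theorem Sf_le_radius {ρ : ℂ → ℝ} (hρ : Den ρ) {x : ℂ} {r : ℝ} (hr : 0 ≤ r)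
    (h : ∀ z, ρ z ≠ 0 → ‖z - x‖ ≤ r) : Sf ρ ≤ r := by
  sorry

/-- (1.8) -/
theorem Dd_tendsto {ρ : ℂ → ℝ} (hρ : Den ρ) : Tendsto (Dd ρ) (cocompact ℂ) (𝓝 1) := by
  sorry

/-- (1.5): the bounded Cauchy transform with coefficient `S` -/
theorem exists_h {ρ : ℂ → ℝ} (hρ : Den ρ) : ∃ h : ℂ → ℂ, Continuous h ∧ (∀ z, ‖h z‖ ≤ 1) ∧
    (∀ z, ‖CT (fun w => h w * (ρ w : ℂ)) z‖ ≤ 1) ∧ ∫ w, h w * (ρ w : ℂ) = (Sf ρ : ℂ) := by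
  sorry

theorem exists_f {ρ : ℂ → ℝ} (hρ : Den ρ) : ∃ g : ℂ → ℂ, CC g ∧ (∀ z, ‖g z‖ ≤ ρ z) ∧
    (∀ z, ‖CT g z‖ ≤ 1) ∧ ∫ w, g w = (Sf ρ : ℂ) := by
  obtain ⟨h, h1, h2, h3, h4⟩ := exists_h hρ
  refine ⟨fun w => h w * (ρ w : ℂ), hρ.cc_mul h1, fun z => ?_, h3, h4⟩
  rw [norm_mul, Complex.norm_real, Real.norm_eq_abs, abs_of_nonneg (hρ.nonneg z)]
  have := mul_le_mul_of_nonneg_right (h2 z) (hρ.nonneg z)
  linarith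

/-- (1.6): the moving frame -/
theorem moving_frame {ρ : ℂ → ℝ} (hρ : Den ρ) (x : ℂ) : ∃ φ h : ℂ → ℂ,
    Continuous φ ∧ Continuous h ∧ (∀ z, ‖φ z‖ ≤ 1) ∧ (∀ z, ‖h z‖ ≤ 1) ∧
    ∀ (y : ℂ) (e : ℝ), e ≤ 1 / 4 →
      ‖CT (fun w => φ w * (ρ w : ℂ)) y - CT (fun w => φ w * (ρ w : ℂ)) x‖ ≤ e →
      ‖CT (fun w => h w * (ρ w : ℂ)) y - CT (fun w => h w * (ρ w : ℂ)) x‖ ≤ e →
      (1 - 4 * e) * Dd ρ x ≤ Dd ρ y := by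
  sorry

/-- the corollary (MF) -/
theorem mf {ρ : ℂ → ℝ} (hρ : Den ρ) {x y : ℂ} {e : ℝ} (he : e ≤ 1 / 4)
    (h : ∀ φ : ℂ → ℂ, Continuous φ → (∀ z, ‖φ z‖ ≤ 1) →
      ‖CT (fun w => φ w * (ρ w : ℂ)) y - CT (fun w => φ w * (ρ w : ℂ)) x‖ ≤ e) :
    (1 - 4 * e) * Dd ρ x ≤ Dd ρ y := by
  obtain ⟨φ, k, h1, h2, h3, h4, h5⟩ := moving_frame hρ x
  exact h5 y e he (h φ h1 h3) (h k h2 h4)

section fam

variable {ι : Type} [Fintype ι]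

/-- (1.3): continuity of the functional in the weights -/
theorem Sf_nuc_continuousOn {κ : ι → ℂ → ℝ} (hκ : ∀ k, Den (κ k)) :
    ContinuousOn (fun c : ι → ℝ => Sf (nuc κ c)) {c | ∀ k, 0 ≤ c k} := by
  sorry

/-- (1.3): continuity of the averages of `D` in the weights -/
theorem intD_nuc_continuousOn {κ : ι → ℂ → ℝ} (hκ : ∀ k, Den (κ k)) {τ : ℂ → ℝ} (hτ : Den τ) :
    ContinuousOn (fun c : ι → ℝ => ∫ z, Dd (nuc κ c) z * τ z) {c | ∀ k, 0 ≤ c k} := by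
  sorry

end fam

end Pool.Agent.PA
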