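import Pool.Agent.Helper33.PA.IfB

/-!
# MP_f6d4b0_an phase 2: interface, section 2 (strong subadditivity and its consequences)

The statements with `sorry` are the targets of block C.
-/

set_option autoImplicit false

open Complex Filter Topology Metric MeasureTheory
open scoped ComplexConjugate

namespace Pool.Agent.PA

/-- (2.1) strong subadditivity -/
theorem Sf_strong {ρ₀ ρ₁ ρ₂ : ℂ → ℝ} (h₀ : Den ρ₀) (h₁ : Den ρ₁) (h₂ : Den ρ₂) :
    Sf (fun z => ρ₀ z + ρ₁ z + ρ₂ z) + Sf ρ₀ ≤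
      Sf (fun z => ρ₀ z + ρ₁ z) + Sf (fun z => ρ₀ z + ρ₂ z) := by
  sorry

/-- (2.2) -/
theorem Dd_anti {ρ σ : ℂ → ℝ} (hρ : Den ρ) (hσ : Den σ) (h : ∀ z, ρ z ≤ σ z) (z : ℂ) :
    Dd σ z ≤ Dd ρ z := by
  sorry

/-- (2.2) -/
theorem Sf_sub_le {ρ σ : ℂ → ℝ} (hρ : Den ρ) (hσ : Den σ) (h : ∀ z, ρ z ≤ σ z) :
    Sf σ - Sf ρ ≤ ∫ z, Dd ρ z * (σ z - ρ z) := by
  sorry

/-- (2.2) -/
theorem le_Sf_sub {ρ σ : ℂ → ℝ} (hρ : Den ρ) (hσ : Den σ) (h : ∀ z, ρ z ≤ σ z) :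
    ∫ z, Dd σ z * (σ z - ρ z) ≤ Sf σ - Sf ρ := by
  sorry

/-! ## Consequences, proved -/

theorem Sf_zero : Sf (fun _ => 0) = 0 := by simp [Sf]

theorem ct_mul_zero (g : ℂ → ℂ) (z : ℂ) :
    CT (fun w => g w * (((fun _ : ℂ => (0 : ℝ)) w : ℝ) : ℂ)) z = 0 := by simp [CT]

theorem Dd_zero (z : ℂ) : Dd (fun _ => 0) z = 1 := by
  have h := isFld Den.zero
  have hL : Lf (fun _ => 0) z = 1 := by
    rw [h.eqL z, ct_mul_zero, add_zero]
  have hG : Gf (fun _ => 0) z = 0 := by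
    rw [h.eqG z, ct_mul_zero, add_zero]
  unfold Dd
  rw [hL, hG]
  norm_num

theorem Dd_le_one {ρ : ℂ → ℝ} (hρ : Den ρ) (z : ℂ) : Dd ρ z ≤ 1 := by
  rw [← Dd_zero z]
  exact Dd_anti Den.zero hρ hρ.nonneg z

theorem intD_integrable {ρ τ : ℂ → ℝ} (hρ : Den ρ) (hτ : Den τ) :
    Integrable fun z => Dd ρ z * τ z :=
  (hτ.mul (Dd_continuous hρ) fun z => (Dd_pos hρ z).le).integrable

theorem intD_nonneg {ρ τ : ℂ → ℝ} (hρ : Den ρ) (hτ : Den τ) : 0 ≤ ∫ z, Dd ρ z * τ z :=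
  integral_nonneg fun z => mul_nonneg (Dd_pos hρ z).le (hτ.nonneg z)

theorem intD_le_mass {ρ τ : ℂ → ℝ} (hρ : Den ρ) (hτ : Den τ) : ∫ z, Dd ρ z * τ z ≤ mass τ := by
  refine integral_mono (intD_integrable hρ hτ) hτ.integrable fun z => ?_
  have := mul_le_mul_of_nonneg_right (Dd_le_one hρ z) (hτ.nonneg z)
  simpa using this

theorem intD_ge {ρ τ : ℂ → ℝ} {lam : ℝ} (hρ : Den ρ) (hτ : Den τ)
    (h : ∀ z, τ z ≠ 0 → lam ≤ Dd ρ z) : lam * mass τ ≤ ∫ z, Dd ρ z * τ z := by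
  unfold mass
  rw [← integral_const_mul]
  refine integral_mono (hτ.integrable.const_mul lam) (intD_integrable hρ hτ) fun z => ?_
  by_cases h0 : τ z = 0
  · simp [h0]
  · exact mul_le_mul_of_nonneg_right (h z h0) (hτ.nonneg z)

theorem intD_le {ρ τ : ℂ → ℝ} {lam : ℝ} (hρ : Den ρ) (hτ : Den τ)
    (h : ∀ z, τ z ≠ 0 → Dd ρ z ≤ lam) : ∫ z, Dd ρ z * τ z ≤ lam * mass τ := by
  unfold mass
  rw [← integral_const_mul]
  refine integral_mono (intD_integrable hρ hτ) (hτ.integrable.const_mul lam) fun z => ?_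
  by_cases h0 : τ z = 0
  · simp [h0]
  · exact mul_le_mul_of_nonneg_right (h z h0) (hτ.nonneg z)

/-- the difference of two ordered densities -/
theorem Den.sub {ρ σ : ℂ → ℝ} (hρ : Den ρ) (hσ : Den σ) (h : ∀ z, ρ z ≤ σ z) :
    Den (fun z => σ z - ρ z) :=
  ⟨hσ.cont.sub hρ.cont, hσ.supp.sub hρ.supp, fun z => sub_nonneg.2 (h z)⟩

theorem mass_sub {ρ σ : ℂ → ℝ} (hρ : Den ρ) (hσ : Den σ) :
    mass (fun z => σ z - ρ z) = mass σ - mass ρ := integral_sub hσ.integrable hρ.integrable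

theorem Sf_mono {ρ σ : ℂ → ℝ} (hρ : Den ρ) (hσ : Den σ) (h : ∀ z, ρ z ≤ σ z) : Sf ρ ≤ Sf σ := by
  have h1 := le_Sf_sub hρ hσ h
  have h2 := intD_nonneg hσ (hρ.sub hσ h)
  linarith

theorem Sf_add_le {ρ σ : ℂ → ℝ} (hρ : Den ρ) (hσ : Den σ) :
    Sf (fun z => ρ z + σ z) ≤ Sf ρ + ∫ z, Dd ρ z * σ z := by
  have h1 := Sf_sub_le hρ (hρ.add hσ) fun z => by linarith [hσ.nonneg z]
  have e : ∀ z, ρ z + σ z - ρ z = σ z := fun z => by ring
  simp only [e] at h1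
  linarith

theorem le_Sf_add {ρ σ : ℂ → ℝ} (hρ : Den ρ) (hσ : Den σ) :
    Sf ρ + ∫ z, Dd (fun z => ρ z + σ z) z * σ z ≤ Sf (fun z => ρ z + σ z) := by
  have h1 := le_Sf_sub hρ (hρ.add hσ) fun z => by linarith [hσ.nonneg z]
  have e : ∀ z, ρ z + σ z - ρ z = σ z := fun z => by ring
  simp only [e] at h1
  linarith

theorem Sf_subadd {ρ σ : ℂ → ℝ} (hρ : Den ρ) (hσ : Den σ) :
    Sf (fun z => ρ z + σ z) ≤ Sf ρ + Sf σ := by
  have h := Sf_strong Den.zero hρ hσ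
  simp only [zero_add, Sf_zero] at h
  linarith

theorem Sf_le_add {ρ σ τ : ℂ → ℝ} (hρ : Den ρ) (hσ : Den σ) (hτ : Den τ)
    (h : ∀ z, τ z ≤ ρ z + σ z) : Sf τ ≤ Sf ρ + Sf σ :=
  (Sf_mono hτ (hρ.add hσ) h).trans (Sf_subadd hρ hσ)

theorem Sf_sum_le {ι : Type*} {ρ : ι → ℂ → ℝ} (s : Finset ι) (h : ∀ k ∈ s, Den (ρ k)) :
    Sf (fun z => ∑ k ∈ s, ρ k z) ≤ ∑ k ∈ s, Sf (ρ k) := by
  classical
  induction s using Finset.induction_on with
  | empty => simp [Sf_zero]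
  | insert a s ha ih =>
    have h1 := h a (Finset.mem_insert_self a s)
    have h2 : ∀ k ∈ s, Den (ρ k) := fun k hk => h k (Finset.mem_insert_of_mem hk)
    simp only [Finset.sum_insert ha]
    exact (Sf_subadd h1 (Den.sum s h2)).trans (by linarith [ih h2])

theorem Sf_le_sum {ι : Type*} {ρ : ι → ℂ → ℝ} (s : Finset ι) (h : ∀ k ∈ s, Den (ρ k))
    {τ : ℂ → ℝ} (hτ : Den τ) (hle : ∀ z, τ z ≤ ∑ k ∈ s, ρ k z) : Sf τ ≤ ∑ k ∈ s, Sf (ρ k) :=
  (Sf_mono hτ (Den.sum s h) hle).trans (Sf_sum_le s h)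

/-- the difference of `S` is at most the difference of the masses -/
theorem Sf_sub_le_mass {ρ σ : ℂ → ℝ} (hρ : Den ρ) (hσ : Den σ) (h : ∀ z, ρ z ≤ σ z) :
    Sf σ - Sf ρ ≤ mass σ - mass ρ := by
  have h1 := Sf_sub_le hρ hσ h
  have h2 := intD_le_mass hρ (hρ.sub hσ h)
  rw [mass_sub hρ hσ] at h2
  linarith

theorem Sf_smul_ge {ρ : ℂ → ℝ} (hρ : Den ρ) {t : ℝ} (h0 : 0 ≤ t) (h1 : t ≤ 1) :
    t * Sf ρ ≤ Sf (fun z => t * ρ z) := by
  have hd := hρ.smul h0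
  have hle : ∀ z, t * ρ z ≤ ρ z := fun z => by nlinarith [hρ.nonneg z]
  have a1 := Sf_sub_le hd hρ hle
  have a2 := le_Sf_sub Den.zero hd hd.nonneg
  set X := ∫ z, Dd (fun z => t * ρ z) z * ρ z with hX
  have e1 : ∫ z, Dd (fun z => t * ρ z) z * (ρ z - t * ρ z) = (1 - t) * X := by
    rw [hX, ← integral_const_mul]
    refine integral_congr_ae (Eventually.of_forall fun z => ?_)
    simp only
    ring
  have e2 : ∫ z, Dd (fun z => t * ρ z) z * (t * ρ z - (fun _ => (0 : ℝ)) z) = t * X := by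
    rw [hX, ← integral_const_mul]
    refine integral_congr_ae (Eventually.of_forall fun z => ?_)
    simp only
    ring
  rw [e1] at a1
  rw [e2, Sf_zero] at a2
  nlinarith

/-- (2.3) heredity -/
theorem her_of_D {ρ : ℂ → ℝ} (hρ : Den ρ) {lam : ℝ} (h : ∀ z, ρ z ≠ 0 → lam ≤ Dd ρ z) :
    Her ρ lam := by
  intro τ hτ hle
  have a1 := le_Sf_sub Den.zero hτ hτ.nonneg
  rw [Sf_zero] at a1
  have e1 : ∫ z, Dd τ z * (τ z - (fun _ => (0 : ℝ)) z) = ∫ z, Dd τ z * τ z := by simp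
  rw [e1] at a1
  have a2 : lam * mass τ ≤ ∫ z, Dd τ z * τ z := by
    refine intD_ge hτ hτ fun z hz => ?_
    have h1 : ρ z ≠ 0 := by
      intro h0
      have := hle z
      rw [h0] at this
      exact hz (le_antisymm this (hτ.nonneg z))
    exact (h z h1).trans (Dd_anti hτ hρ hle z)
  linarith

/-- heredity with averages: `S` is at least the average of `D` -/
theorem intD_le_Sf {ρ τ : ℂ → ℝ} (hρ : Den ρ) (hτ : Den τ) (h : ∀ z, τ z ≤ ρ z) :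
    ∫ z, Dd ρ z * τ z ≤ Sf τ := by
  have a1 := le_Sf_sub Den.zero hτ hτ.nonneg
  rw [Sf_zero] at a1
  have e1 : ∫ z, Dd τ z * (τ z - (fun _ => (0 : ℝ)) z) = ∫ z, Dd τ z * τ z := by simp
  rw [e1] at a1
  have a2 : ∫ z, Dd ρ z * τ z ≤ ∫ z, Dd τ z * τ z :=
    integral_mono (intD_integrable hρ hτ) (intD_integrable hτ hτ) fun z =>
      mul_le_mul_of_nonneg_right (Dd_anti hτ hρ h z) (hτ.nonneg z)
  linarith

/-- a cut-off: one on the disc of radius `r`, zero off the disc of radius `r + s` -/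
noncomputable def cut (x : ℂ) (r s : ℝ) (z : ℂ) : ℝ := min 1 (max 0 (1 - (‖z - x‖ - r) / s))

theorem cut_continuous (x : ℂ) (r s : ℝ) : Continuous (cut x r s) := by
  unfold cut
  fun_prop

theorem cut_nonneg (x : ℂ) (r s : ℝ) (z : ℂ) : 0 ≤ cut x r s z :=
  le_min zero_le_one (le_max_left _ _)

theorem cut_le_one (x : ℂ) (r s : ℝ) (z : ℂ) : cut x r s z ≤ 1 := min_le_left _ _

theorem cut_eq_one {x : ℂ} {r s : ℝ} (hs : 0 < s) {z : ℂ} (h : ‖z - x‖ ≤ r) :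
    cut x r s z = 1 := by
  have h1 : (‖z - x‖ - r) / s ≤ 0 := div_nonpos_of_nonpos_of_nonneg (by linarith) hs.le
  unfold cut
  rw [min_eq_left]
  exact le_max_of_le_right (by linarith)

theorem cut_eq_zero {x : ℂ} {r s : ℝ} (hs : 0 < s) {z : ℂ} (h : r + s ≤ ‖z - x‖) :
    cut x r s z = 0 := by
  have h1 : 1 ≤ (‖z - x‖ - r) / s := by
    rw [le_div_iff₀ hs]
    linarith
  unfold cut
  rw [max_eq_left (by linarith), min_eq_right zero_le_one]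

/-- heredity gives linear growth -/
theorem her_bm {ρ : ℂ → ℝ} (hρ : Den ρ) {lam : ℝ} (hl : 0 < lam) (her : Her ρ lam) (x : ℂ) {r : ℝ}
    (hr : 0 ≤ r) : bm ρ x r ≤ r / lam := by
  rw [le_div_iff₀ hl]
  refine le_of_forall_pos_le_add fun s hs => ?_
  have hτ : Den (fun z => cut x r s z * ρ z) := hρ.mul (cut_continuous x r s) (cut_nonneg x r s)
  have hle : ∀ z, cut x r s z * ρ z ≤ ρ z := fun z =>
    mul_le_of_le_one_left (hρ.nonneg z) (cut_le_one x r s z)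
  have h1 := her _ hτ hle
  have h2 : Sf (fun z => cut x r s z * ρ z) ≤ r + s := by
    refine Sf_le_radius hτ (by linarith) (x := x) fun z hz => ?_
    by_contra h0
    rw [cut_eq_zero hs (not_le.1 h0).le, zero_mul] at hz
    exact hz rfl
  have h3 : bm ρ x r ≤ mass (fun z => cut x r s z * ρ z) := by
    have e : bm ρ x r = bm (fun z => cut x r s z * ρ z) x r :=
      bm_congr fun z hz => by rw [cut_eq_one hs hz, one_mul]
    rw [e]
    exact bm_le_mass hτ x r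
  nlinarith

end Pool.Agent.PA
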