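import Pool.Agent.Helper33.PA.IfC

/-!
# MP_f6d4b0_an phase 2: interface, section 3 (the tools (A), (B), Loc, WT, H)

The statements with `sorry` are the targets of block D.
-/

set_option autoImplicit false

open Complex Filter Topology Metric MeasureTheory
open scoped ComplexConjugate

namespace Pool.Agent.PA

/-- tool (A). Proof: `u = C(g)`; the first coefficient of `u L ^ 2` is `∫ g`, and by the product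
formula it is `∫ (g L ^ 2 + 2 u L conj G ρ)`; both terms are bounded by the energies. -/
theorem dualA {ρ : ℂ → ℝ} (hρ : Den ρ) {g : ℂ → ℂ} (hg : CC g) {M M' : ℝ} (hM : 0 ≤ M)
    (h1 : ∀ z, ‖g z‖ ≤ M * ρ z) (h2 : ∀ z, ‖CT g z‖ ≤ M') :
    ‖∫ z, g z‖ ≤ (M + M') * Sf ρ := by
  sorry

/-- tool (B). Proof: for `β = conj G`, `∫ g = ∫ g (1 + C(β ρ)) + ∫ β C(g) ρ` by antisymmetry;
Cauchy-Schwarz. -/
theorem dualB {ρ : ℂ → ℝ} (hρ : Den ρ) {g : ℂ → ℂ} (hg : CC g) {M : ℝ} (hM : 0 ≤ M)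
    (h1 : ∀ z, ‖g z‖ ≤ M * ρ z) :
    ‖∫ z, g z‖ ^ 2 ≤ (M ^ 2 * mass ρ + ∫ z, ‖CT g z‖ ^ 2 * ρ z) * Sf ρ := by
  sorry

/-- localisation with a Lipschitz cut-off -/
theorem loc_lip {χ : ℂ → ℂ} {z₀ : ℂ} {l K M : ℝ} {g : ℂ → ℂ} (hl : 0 < l) (hK : 0 ≤ K)
    (h1 : ∀ z w, ‖χ z - χ w‖ ≤ K * ‖z - w‖) (h2 : ∀ z, l < ‖z - z₀‖ → χ z = 0) (hg : CC g)
    (h3 : ∀ z, ‖CT g z‖ ≤ M) (z : ℂ) : ‖CT (fun w => χ w * g w) z‖ ≤ 3 * (K * l) * M := by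
  sorry

/-- weak type estimate -/
theorem weak_type {lam : ℝ} (hlam : 0 < lam) : ∃ C : ℝ, 0 < C ∧ ∀ ρ : ℂ → ℝ, Den ρ →
    Her ρ lam → ∀ β : ℂ → ℂ, CC β → ∀ s : ℝ, 0 < s → ∀ τ : ℂ → ℝ, Den τ → (∀ z, τ z ≤ ρ z) →
    (∀ z, τ z ≠ 0 → s ≤ ‖CT β z‖) → mass τ ≤ C * (∫ z, ‖β z‖) / s := by
  sorry

/-- amplification -/
theorem ampl {lam eps : ℝ} (hlam : 0 < lam) (heps : 0 < eps) : ∃ t₀ : ℝ, 0 < t₀ ∧ t₀ ≤ 1 ∧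
    ∀ ρ : ℂ → ℝ, Den ρ → Her ρ lam → ∀ t : ℝ, 0 ≤ t → t ≤ t₀ →
    (1 - eps) * (t * mass ρ) ≤ Sf (fun z => t * ρ z) := by
  sorry

end Pool.Agent.PA
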