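import Pool.Agent.Helper33.PA.IfD

/-!
# MP_f6d4b0_an phase 2: interface, section 4 (lower bounds of `D`)

The statements with `sorry` are the targets of block E.
-/

set_option autoImplicit false

open Complex Filter Topology Metric MeasureTheory
open scoped ComplexConjugate

namespace Pool.Agent.PA

/-- (4.2) adding mass. `ρ` vanishes in the disc of radius `m` about `z₀`, `σ` is arbitrary. -/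
theorem add_mass : ∃ ca : ℝ, 0 < ca ∧ ∀ (ρ σ : ℂ → ℝ), Den ρ → Den σ → ∀ (z₀ : ℂ) (m : ℝ),
    0 < m → (∀ w, ‖w - z₀‖ ≤ m → ρ w = 0) →
    (∀ z, ‖z - z₀‖ ≤ m / 2 → ∫ w, ρ w / ‖w - z‖ ^ 2 ≤ 1 / m) →
    ∃ x, ‖x - z₀‖ ≤ m / 8 ∧ Dd ρ z₀ / 2 - mass σ / (ca * m) ≤ Dd (fun z => ρ z + σ z) x := by
  sorry

/-- (4.4) the gain lemma -/
theorem gain : ∃ c₁ c₅ : ℝ, 0 < c₁ ∧ c₁ ≤ 1 ∧ 0 < c₅ ∧ c₅ ≤ 1 ∧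
    ∀ (σ₀ τ : ℂ → ℝ), Den σ₀ → Den τ → ∀ (z₀ : ℂ) (l : ℝ), 0 < l →
    (∀ w, ‖w - z₀‖ ≤ 20 * l → σ₀ w = 0) →
    (∀ z, ‖z - z₀‖ ≤ 10 * l → ∫ w, σ₀ w / ‖w - z‖ ^ 2 ≤ c₁ / l) →
    1 / 8 ≤ Dd σ₀ z₀ → (∀ w, τ w ≠ 0 → ‖w - z₀‖ ≤ 2 * l) → Her τ (2 / 5) →
    Sf σ₀ + c₅ * mass τ ≤ Sf (fun z => σ₀ z + τ z) := by
  sorry

end Pool.Agent.PA
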